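import Mathlib
import Pool.Agent.Helpers.RD5

open MeasureTheory Filter Topology TorusOrbit

namespace Pool.Agent.Results.MP_f4a5b0_an.Sp4

/-- In `Sp(4,ℝ)/Sp(4,ℤ)` there is a point none of whose one-parameter orbits under the maximal
split torus `A` is divergent, while its `A`-orbit spends a proportion of time tending to `0` in
every compact set. -/
theorem result : ∃ x : X,
    (∀ Y : ℝ × ℝ, Y ≠ 0 → ¬ Divergent (oneParam Y) x) ∧
    (∀ K : Set X, IsCompact K → Tendsto (prop x K) atTop (𝓝 0)) :=
  ⟨TorusRec.x0, TorusRec.not_div, TorusRec.prop_tendsto⟩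

end Pool.Agent.Results.MP_f4a5b0_an.Sp4
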